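import Pool.Agent.H148Z.PH5

set_option autoImplicit false

namespace Pool.Agent.Results.MP_c74059_gt.AProdHurewiczNotMenger

open Pool.Agent.H148Z.PH

universe u

/-- Under CH there is a subspace `X` of a Cantor cube whose product with every Hurewicz space is
Hurewicz, while its product with some Menger subspace of the Cantor space is not Menger. -/
theorem result (hCH : Cardinal.continuum.{0} = Cardinal.aleph 1) :
    ∃ X : Set (ℕ → Bool × Bool),
      (∀ (Y : Type u) [TopologicalSpace Y], IsHurewicz Y → IsHurewicz (X × Y)) ∧
      ∃ M : Set (ℕ → Bool), IsMenger M ∧ ¬ IsMenger (X × M) :=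
  main hCH

end Pool.Agent.Results.MP_c74059_gt.AProdHurewiczNotMenger
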